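import Mathlib

/-!
# Balancing unit vectors: disjoint dependent subfamilies, and the case `n = d + 1`

If a family of unit vectors has `m` linear dependences with pairwise disjoint supports, then some
signing has `‖∑ εᵢ vᵢ‖² ≤ n - 2 m`.  In particular `n ≤ d + 1` unit vectors of `ℝ^d`, with `n` and `d`
of opposite parity, have a signing with `‖∑ εᵢ vᵢ‖ ≤ √(d - 1)`.

The proof of the one-circuit case weights the signings by `(∑ cᵢ εᵢ)²`, where `c` is the dependence.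
-/

namespace Pool.Agent.Results.MP_1be6c9_co.DisjointCircuits

open Finset

variable {E : Type*} [NormedAddCommGroup E] [InnerProductSpace ℝ E]

/-- A sign vector. -/
def IsSign {ι : Type*} (ε : ι → ℝ) : Prop := ∀ i, ε i = 1 ∨ ε i = -1

/-- One-step averaging with a quadratic weight. -/
lemma weighted {ι : Type*} [DecidableEq ι] (v : ι → E) (c : ι → ℝ) (t : ℝ) (s : Finset ι) :
    ∀ (a : ℝ) (w : E), ∃ ε : ι → ℝ, IsSign ε ∧
      (a + ∑ i ∈ s, c i * ε i) ^ 2 * (‖w + ∑ i ∈ s, ε i • v i‖ ^ 2 - t) ≤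
        a ^ 2 * ‖w‖ ^ 2 + a ^ 2 * ∑ i ∈ s, ‖v i‖ ^ 2
          + 4 * a * inner ℝ w (∑ i ∈ s, c i • v i) + ‖w‖ ^ 2 * ∑ i ∈ s, c i ^ 2
          + (∑ i ∈ s, c i ^ 2) * (∑ i ∈ s, ‖v i‖ ^ 2) + 2 * ‖∑ i ∈ s, c i • v i‖ ^ 2
          - 2 * ∑ i ∈ s, c i ^ 2 * ‖v i‖ ^ 2 - t * (a ^ 2 + ∑ i ∈ s, c i ^ 2) := by
  induction s using Finset.induction_on with
  | empty =>
    intro a w
    refine ⟨fun _ => 1, fun _ => Or.inl rfl, ?_⟩
    simp
    nlinarith
  | insert j s hj ih =>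
    intro a w
    obtain ⟨e₁, h₁, H₁⟩ := ih (a + c j) (w + v j)
    obtain ⟨e₂, h₂, H₂⟩ := ih (a - c j) (w - v j)
    have key : ∀ (e : ι → ℝ) (x : ℝ), IsSign e → (x = 1 ∨ x = -1) →
        ∃ ε : ι → ℝ, IsSign ε ∧ (∑ i ∈ insert j s, c i * ε i = c j * x + ∑ i ∈ s, c i * e i) ∧
          (∑ i ∈ insert j s, ε i • v i = x • v j + ∑ i ∈ s, e i • v i) := by
      intro e x he hx
      refine ⟨Function.update e j x, ?_, ?_, ?_⟩
      · intro i
        by_cases hi : i = j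
        · subst hi; simpa using hx
        · rw [Function.update_of_ne hi]; exact he i
      · rw [Finset.sum_insert hj, Function.update_self]
        congr 1
        refine Finset.sum_congr rfl fun i hi => ?_
        have hij : i ≠ j := by rintro rfl; exact hj hi
        rw [Function.update_of_ne hij]
      · rw [Finset.sum_insert hj, Function.update_self]
        congr 1
        refine Finset.sum_congr rfl fun i hi => ?_
        have hij : i ≠ j := by rintro rfl; exact hj hi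
        rw [Function.update_of_ne hij]
    obtain ⟨f₁, g₁, p₁, q₁⟩ := key e₁ 1 h₁ (Or.inl rfl)
    obtain ⟨f₂, g₂, p₂, q₂⟩ := key e₂ (-1) h₂ (Or.inr rfl)
    set C := ∑ i ∈ s, c i ^ 2
    set V := ∑ i ∈ s, ‖v i‖ ^ 2
    set D := ∑ i ∈ s, c i ^ 2 * ‖v i‖ ^ 2
    set U := ∑ i ∈ s, c i • v i
    have n1 : ‖w + v j‖ ^ 2 = ‖w‖ ^ 2 + 2 * inner ℝ w (v j) + ‖v j‖ ^ 2 := norm_add_sq_real _ _
    have n2 : ‖w - v j‖ ^ 2 = ‖w‖ ^ 2 - 2 * inner ℝ w (v j) + ‖v j‖ ^ 2 := norm_sub_sq_real _ _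
    have n3 : inner ℝ (w + v j) U = inner ℝ w U + inner ℝ (v j) U := inner_add_left _ _ _
    have n4 : inner ℝ (w - v j) U = inner ℝ w U - inner ℝ (v j) U := inner_sub_left _ _ _
    have n5 : ‖c j • v j + U‖ ^ 2 = c j ^ 2 * ‖v j‖ ^ 2 + 2 * (c j * inner ℝ (v j) U) + ‖U‖ ^ 2 := by
      rw [norm_add_sq_real, norm_smul, inner_smul_left]
      simp [mul_pow, sq_abs]
    have n6 : inner ℝ w (c j • v j + U) = c j * inner ℝ w (v j) + inner ℝ w U := by
      rw [inner_add_right, inner_smul_right]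
    have e1 : (a + ∑ i ∈ insert j s, c i * f₁ i) ^ 2 *
        (‖w + ∑ i ∈ insert j s, f₁ i • v i‖ ^ 2 - t) =
        (a + c j + ∑ i ∈ s, c i * e₁ i) ^ 2 * (‖w + v j + ∑ i ∈ s, e₁ i • v i‖ ^ 2 - t) := by
      rw [p₁, q₁, one_smul, mul_one, add_assoc a, add_assoc w]
    have e2 : (a + ∑ i ∈ insert j s, c i * f₂ i) ^ 2 *
        (‖w + ∑ i ∈ insert j s, f₂ i • v i‖ ^ 2 - t) =
        (a - c j + ∑ i ∈ s, c i * e₂ i) ^ 2 * (‖w - v j + ∑ i ∈ s, e₂ i • v i‖ ^ 2 - t) := by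
      rw [p₂, q₂, neg_smul, one_smul, mul_neg, mul_one, sub_eq_add_neg a, sub_eq_add_neg w,
        add_assoc a, add_assoc w]
    rw [Finset.sum_insert hj, Finset.sum_insert hj, Finset.sum_insert hj, Finset.sum_insert hj]
    rw [n1, n3] at H₁
    rw [n2, n4] at H₂
    rw [n5, n6]
    by_contra hcon
    push Not at hcon
    have c1 := hcon f₁ g₁
    have c2 := hcon f₂ g₂
    rw [e1] at c1
    rw [e2] at c2
    linarith [c1, c2, H₁, H₂]

/-- One dependence: some signing has squared norm at most `∑ ‖v i‖² - 2`, for unit vectors. -/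
lemma one_circuit {ι : Type*} [DecidableEq ι] (s : Finset ι) (v : ι → E)
    (hv : ∀ i, ‖v i‖ = 1) (c : ι → ℝ) (hc : ∃ i ∈ s, c i ≠ 0) (h0 : ∑ i ∈ s, c i • v i = 0) :
    ∃ ε : ι → ℝ, IsSign ε ∧ ‖∑ i ∈ s, ε i • v i‖ ^ 2 ≤ s.card - 2 := by
  classical
  by_contra hcon
  push Not at hcon
  -- minimise over the finitely many sign vectors coming from subsets of `s`
  let sg : Finset ι → ι → ℝ := fun T i => if i ∈ T then 1 else -1
  have hsg : ∀ T, IsSign (sg T) := by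
    intro T i
    by_cases h : i ∈ T
    · left; simp [sg, h]
    · right; simp [sg, h]
  obtain ⟨T, -, hT⟩ := Finset.exists_min_image s.powerset
    (fun T => ‖∑ i ∈ s, sg T i • v i‖ ^ 2) ⟨∅, by simp⟩
  have hmin : ∀ ε : ι → ℝ, IsSign ε →
      ‖∑ i ∈ s, sg T i • v i‖ ^ 2 ≤ ‖∑ i ∈ s, ε i • v i‖ ^ 2 := by
    intro ε hε
    have := hT (s.filter fun i => ε i = 1) (by simp)
    have h2 : ∑ i ∈ s, sg (s.filter fun i => ε i = 1) i • v i = ∑ i ∈ s, ε i • v i := by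
      refine Finset.sum_congr rfl fun i hi => ?_
      rcases hε i with h | h
      · simp [sg, hi, h]
      · have h1 : ¬ ((-1 : ℝ) = 1) := by norm_num
        simp [sg, h, h1]
    simpa [h2] using this
  set t := ‖∑ i ∈ s, sg T i • v i‖ ^ 2 with ht
  have ht2 : (s.card : ℝ) - 2 < t := hcon _ (hsg T)
  obtain ⟨ε, hε, H⟩ := weighted v c t s 0 0
  have hC : 0 < ∑ i ∈ s, c i ^ 2 := by
    obtain ⟨i, hi, hci⟩ := hc
    refine Finset.sum_pos' (fun j _ => sq_nonneg _) ⟨i, hi, by positivity⟩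
  have hcard : ∑ i ∈ s, ‖v i‖ ^ 2 = s.card := by simp [hv]
  have hcc : ∑ i ∈ s, c i ^ 2 * ‖v i‖ ^ 2 = ∑ i ∈ s, c i ^ 2 := by simp [hv]
  rw [h0, hcard, hcc] at H
  simp only [zero_add, norm_zero] at H
  have h3 := hmin ε hε
  have h4 : 0 ≤ (∑ i ∈ s, c i * ε i) ^ 2 * (‖∑ i ∈ s, ε i • v i‖ ^ 2 - t) :=
    mul_nonneg (sq_nonneg _) (by linarith)
  nlinarith [mul_pos hC (sub_pos.2 ht2)]

/-- Signs for finitely many vectors with squared norm at most the sum of squares. -/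
lemma parallelogram {κ : Type*} [DecidableEq κ] (s : Finset κ) (u : κ → E) (w : E) :
    ∃ δ : κ → ℝ, IsSign δ ∧ ‖w + ∑ a ∈ s, δ a • u a‖ ^ 2 ≤ ‖w‖ ^ 2 + ∑ a ∈ s, ‖u a‖ ^ 2 := by
  obtain ⟨ε, hε, H⟩ := weighted u (fun _ => 0) 0 s 1 w
  refine ⟨ε, hε, ?_⟩
  simpa using H

/-- The main inequality: dependences with disjoint supports. -/
theorem circuits {n m : ℕ} (v : Fin n → E) (hv : ∀ i, ‖v i‖ = 1)
    (B : Fin m → Finset (Fin n)) (hB : Pairwise fun a b => Disjoint (B a) (B b))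
    (hdep : ∀ a, ∃ c : Fin n → ℝ, (∃ i ∈ B a, c i ≠ 0) ∧ ∑ i ∈ B a, c i • v i = 0) :
    ∃ ε : Fin n → ℝ, IsSign ε ∧ ‖∑ i, ε i • v i‖ ^ 2 ≤ n - 2 * m := by
  classical
  have h1 : ∀ a, ∃ ε : Fin n → ℝ, IsSign ε ∧ ‖∑ i ∈ B a, ε i • v i‖ ^ 2 ≤ (B a).card - 2 := by
    intro a
    obtain ⟨c, hc, h0⟩ := hdep a
    exact one_circuit (B a) v hv c hc h0
  choose e he hle using h1
  -- signs on the rest
  let R : Finset (Fin n) := (Finset.univ.biUnion B)ᶜ
  obtain ⟨r, hr, hrle⟩ := parallelogram R v 0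
  -- signs between blocks
  obtain ⟨δ, hδ, hδle⟩ := parallelogram (Finset.univ : Finset (Fin m))
    (fun a => ∑ i ∈ B a, e a i • v i) (0 + ∑ i ∈ R, r i • v i)
  let ε : Fin n → ℝ := fun i =>
    if h : ∃ a, i ∈ B a then δ h.choose * e h.choose i else r i
  have hεB : ∀ a, ∀ i ∈ B a, ε i = δ a * e a i := by
    intro a i hi
    have h : ∃ a, i ∈ B a := ⟨a, hi⟩
    have h' : h.choose = a := by
      by_contra hne
      exact Finset.disjoint_left.1 (hB hne) h.choose_spec hi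
    simp only [ε, dif_pos h, h']
  have hεR : ∀ i ∈ R, ε i = r i := by
    intro i hi
    have h : ¬ ∃ a, i ∈ B a := by simpa [R] using hi
    simp only [ε, dif_neg h]
  have hpd : (↑(Finset.univ : Finset (Fin m)) : Set (Fin m)).PairwiseDisjoint B :=
    fun a _ b _ hab => hB hab
  have hsplit : ∑ i, ε i • v i = 0 + ∑ i ∈ R, r i • v i
      + ∑ a, δ a • ∑ i ∈ B a, e a i • v i := by
    rw [← Finset.sum_compl_add_sum (Finset.univ.biUnion B) (fun i => ε i • v i),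
      Finset.sum_biUnion hpd, zero_add]
    congr 1
    · exact Finset.sum_congr rfl fun i hi => by rw [hεR i hi]
    · refine Finset.sum_congr rfl fun a _ => ?_
      rw [Finset.smul_sum]
      exact Finset.sum_congr rfl fun i hi => by rw [hεB a i hi, mul_smul]
  refine ⟨ε, ?_, ?_⟩
  · intro i
    by_cases h : ∃ a, i ∈ B a
    · obtain ⟨a, ha⟩ := h
      rw [hεB a i ha]
      rcases hδ a with h1 | h1 <;> rcases he a i with h2 | h2 <;> simp [h1, h2]
    · have : ε i = r i := by simp only [ε, dif_neg h]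
      rw [this]; exact hr i
  · rw [hsplit]
    refine hδle.trans ?_
    have hcardR : ∑ i ∈ R, ‖v i‖ ^ 2 = R.card := by simp [hv]
    have h2 : ∑ a : Fin m, ‖∑ i ∈ B a, e a i • v i‖ ^ 2 ≤ ∑ a : Fin m, (((B a).card : ℝ) - 2) :=
      Finset.sum_le_sum fun a _ => hle a
    have h3 : (R.card : ℝ) + ∑ a : Fin m, ((B a).card : ℝ) = n := by
      have h4 : R.card + (Finset.univ.biUnion B).card = n := by
        rw [Finset.card_compl_add_card, Fintype.card_fin]
      rw [Finset.card_biUnion (fun a _ b _ hab => hB hab)] at h4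
      exact_mod_cast h4
    rw [hcardR, norm_zero] at hrle
    rw [Finset.sum_sub_distrib] at h2
    simp only [Finset.sum_const, Finset.card_univ, Fintype.card_fin, nsmul_eq_mul] at h2
    linarith

/-- (1) If the unit vectors `v₁, …, vₙ` of `ℝ^d` contain `m` pairwise disjoint linearly dependent
subfamilies, some signing has `‖∑ εᵢ vᵢ‖² ≤ n - 2m`; so the conjectured bound `√(d - 1)` holds as
soon as `n + 1 ≤ d + 2 m`.
(2) The conjecture holds for `n ≤ d + 1`. -/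
theorem result :
    (∀ (d n m : ℕ) (v : Fin n → EuclideanSpace ℝ (Fin d)), (∀ i, ‖v i‖ = 1) →
      ∀ B : Fin m → Finset (Fin n), (Pairwise fun a b => Disjoint (B a) (B b)) →
      (∀ a, ∃ c : Fin n → ℝ, (∃ i ∈ B a, c i ≠ 0) ∧ ∑ i ∈ B a, c i • v i = 0) →
      ∃ ε : Fin n → ℝ, (∀ i, ε i = 1 ∨ ε i = -1) ∧ ‖∑ i, ε i • v i‖ ^ 2 ≤ n - 2 * m) ∧
    (∀ (d n : ℕ), 1 ≤ d → n ≤ d + 1 → n % 2 ≠ d % 2 → ∀ v : Fin n → EuclideanSpace ℝ (Fin d),
      (∀ i, ‖v i‖ = 1) →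
      ∃ ε : Fin n → ℝ, (∀ i, ε i = 1 ∨ ε i = -1) ∧
        ‖∑ i, ε i • v i‖ ≤ Real.sqrt ((d : ℝ) - 1)) := by
  refine ⟨fun d n m v hv B hB hdep => circuits v hv B hB hdep, ?_⟩
  intro d n hd hn hpar v hv
  rcases Nat.lt_or_ge d n with h | h
  · have hnd : n = d + 1 := by omega
    subst hnd
    -- a dependence of `d + 1` vectors
    have hnot : ¬ LinearIndependent ℝ v := by
      intro hli
      have := hli.fintype_card_le_finrank
      simp at this
    obtain ⟨c, hc0, i, hi⟩ := Fintype.not_linearIndependent_iff.1 hnot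
    obtain ⟨ε, hε, hle⟩ := circuits (m := 1) v hv (fun _ => Finset.univ)
      (fun a b hab => absurd (Subsingleton.elim a b) hab) (fun _ => ⟨c, ⟨i, Finset.mem_univ _, hi⟩, hc0⟩)
    refine ⟨ε, hε, Real.le_sqrt_of_sq_le ?_⟩
    push_cast at hle
    linarith
  · obtain ⟨ε, hε, hle⟩ := parallelogram (Finset.univ : Finset (Fin n)) v 0
    refine ⟨ε, hε, Real.le_sqrt_of_sq_le ?_⟩
    have h1 : (n : ℝ) ≤ (d : ℝ) - 1 := by
      have : n + 1 ≤ d := by
        rcases Nat.lt_or_ge n d with h' | h'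
        · exact h'
        · exact absurd (by rw [le_antisymm h h']) hpar
      have h2 : ((n + 1 : ℕ) : ℝ) ≤ (d : ℝ) := by exact_mod_cast this
      push_cast at h2
      linarith
    simp [hv] at hle
    linarith

end Pool.Agent.Results.MP_1be6c9_co.DisjointCircuits
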